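import Pool.Agent.Y963.LP.Asm
import Pool.Agent.Y963.LP.Eul
import Pool.Agent.Y421.LP.Bd
import Pool.Agent.Y337.LP.Cnt
import Pool.Agent.Y337.LP.Col

set_option autoImplicit false

/-!
# Locally planar even-faced graphs on orientable surfaces are 4-list colourable

A 2-cell embedding of a graph in a closed orientable surface is given by its rotation system (the
cyclic order of the edges around each vertex). We prove that an even-faced graph embedded in the
orientable surface of genus `g ≥ 1` all of whose noncontractible cycles have length at least `50 g`
is 4-list colourable.

The proof: a minimal set `W` of vertices that cannot be coloured induces a subgraph with minimum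
degree at least four, without triangles, in which every facial 4-cycle has a vertex of degree at least
five (as 4-cycles are colourable from lists of size two). By the Euler inequality for the subgraph `W`
has at most `50 (g - 1)` vertices, so all of its cycles are contractible, and then its own rotation
system has genus zero, which contradicts the minimum degree.
-/

namespace Pool.Agent.Results.MP_caf32e_co.FourListColourable

open SimpleGraph

/-- A 2-cell embedding of the connected graph `G` in a closed orientable surface, given by its
rotation system: a permutation of the darts (the edges with a direction) whose cycles are the sets of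
darts starting at a vertex; `rot d` is the dart following `d` in the cyclic order around the vertex
at which `d` starts. -/
structure Embedding {V : Type} (G : SimpleGraph V) where
  rot : Equiv.Perm G.Dart
  cyclic : ∀ d e : G.Dart, rot.SameCycle d e ↔ d.fst = e.fst

namespace Embedding

variable {V : Type} {G : SimpleGraph V}

/-- The permutation of the darts whose cycles are the facial boundary walks: after the dart `d`
the boundary walk continues with the dart that follows the reverse of `d` around its end. -/
def face (R : Embedding G) : Equiv.Perm G.Dart where
  toFun d := R.rot d.symm
  invFun d := (R.rot.symm d).symm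
  left_inv d := by simp
  right_inv d := by simp

/-- The facial boundary walk that starts with the dart `d`. -/
noncomputable def facialWalk (R : Embedding G) (d : G.Dart) : List G.Dart :=
  (List.range (Function.minimalPeriod R.face d)).map fun i => (R.face ^ i) d

/-- The faces: the cycles of the permutation `face`. -/
def Face (R : Embedding G) : Type := Quotient (Equiv.Perm.SameCycle.setoid R.face)

/-- The Euler characteristic `|V| - |E| + |F|` of the surface. -/
noncomputable def eulerChar (R : Embedding G) : ℤ :=
  (Nat.card V : ℤ) - (Nat.card G.edgeSet : ℤ) + (Nat.card R.Face : ℤ)

/-- Every facial boundary walk has even length. -/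
def EvenFaced (R : Embedding G) : Prop := ∀ d : G.Dart, Even (R.facialWalk d).length

/-- The list `m` of darts arises from the list `l` by insertion of a facial boundary walk or of a dart
and its reverse, where both lists are walks (every dart starts where the dart before it ends). -/
def Insertion (R : Embedding G) (l m : List G.Dart) : Prop :=
  (l.IsChain fun d e => d.snd = e.fst) ∧ (m.IsChain fun d e => d.snd = e.fst) ∧
    ∃ l₁ l₂ : List G.Dart, ∃ d : G.Dart, l = l₁ ++ l₂ ∧
      (m = l₁ ++ [d, d.symm] ++ l₂ ∨ m = l₁ ++ R.facialWalk d ++ l₂)

/-- The closed walk `l` can be contracted to a point in the surface: finitely many insertions and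
deletions of facial boundary walks, and of darts followed by their reverse, transform it into the
empty walk. -/
def Contractible (R : Embedding G) (l : List G.Dart) : Prop := Relation.EqvGen R.Insertion l []

end Embedding

/-- `G` is `k`-list colourable. -/
def ListColourable {V : Type} (G : SimpleGraph V) (k : ℕ) : Prop :=
  ∀ (C : Type) (L : V → Finset C), (∀ v, k ≤ (L v).card) →
    ∃ c : V → C, (∀ v, c v ∈ L v) ∧ ∀ u v, G.Adj u v → c u ≠ c v

/-- Let `g ≥ 1`. Every connected even-faced graph embedded in the closed orientable surface of genus
`g` (Euler characteristic `2 - 2 g`; or of smaller genus) in which every noncontractible cycle has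
length at least `50 g` is 4-list colourable. -/
theorem result : ∀ g : ℕ, 1 ≤ g → ∀ (V : Type) [Fintype V] (G : SimpleGraph V) (R : Embedding G),
    G.Connected → 2 - 2 * (g : ℤ) ≤ R.eulerChar → R.EvenFaced →
    (∀ (v : V) (p : G.Walk v v), p.IsCycle → ¬ R.Contractible p.darts → 50 * g ≤ p.length) →
    ListColourable G 4 := by
  classical
  intro g hg V _ G R hconn heul hev hN C L hL
  let a : Equiv.Perm G.Dart := ⟨Dart.symm, Dart.symm, fun d => d.symm_symm, fun d => d.symm_symm⟩
  have hface : R.face = R.rot * a := rfl
  have hcontr : ∀ l, R.Contractible l ↔
      Pool.Agent.Y963.LP.Contractible (fun d : G.Dart => d.fst) a R.rot l := by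
    intro l
    rfl
  refine Pool.Agent.Y963.LP.main Pool.Agent.Y337.LP.ret Pool.Agent.Y963.LPE.eul Pool.Agent.Y337.LP.cnt Pool.Agent.Y337.LP.col Pool.Agent.Y421.LP.even Pool.Agent.Y421.LP.bd g hg a R.rot
    (fun d => rfl) R.cyclic hconn ?_ ?_ ?_ L hL
  · have h1 : Nat.card G.edgeSet = G.edgeFinset.card := by
      rw [Nat.card_eq_fintype_card, edgeFinset_card]
    have h2 := G.dart_card_eq_twice_card_edges
    have h3 : Nat.card R.Face = Pool.Agent.Y963.LP.orbits (R.rot * a) := rfl
    unfold Embedding.eulerChar at heul
    rw [h1, h3, Nat.card_eq_fintype_card] at heul
    rw [h2]
    push_cast
    linarith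
  · intro d
    have := hev d
    unfold Embedding.facialWalk at this
    rw [List.length_map, List.length_range, hface] at this
    exact this
  · intro v p hp hnc
    exact hN v p hp fun h => hnc ((hcontr _).1 h)

end Pool.Agent.Results.MP_caf32e_co.FourListColourable
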